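import Pool.Agent.Lib.MP_b2dc7d_gt.Defs
import Pool.Agent.Lib.MP_b2dc7d_gt.Final

namespace Pool.Agent.Results.MP_b2dc7d_gt.NotConstantAtInfinity

open Pool.Agent.SlowOsc

/-- **Negative answer to Q1.**  There are a group `G` whose finitary ballean is pseudobounded and a
slowly oscillating function `φ : G → ℝ` that is not constant at infinity. -/
theorem result : ∃ (G : Type) (_ : Group G), Pseudobounded G ∧
    ∃ φ : G → ℝ, SlowlyOscillating φ ∧ ¬ ConstantAtInfinity φ :=
  main

end Pool.Agent.Results.MP_b2dc7d_gt.NotConstantAtInfinity
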